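import Pool.Agent.Lib.MP_69204b_lc.Final

/-! NP is contained in `DTIME(T(n^O(1)))_tt^{R_K}` for the subexponential (quasipolynomial) time
bound `T n = 2 ^ ((number of binary digits of n) ^ 5)`. -/

namespace Pool.Agent.Results.MP_69204b_lc.NPQuasiPolyRK

open RKNP

/-- There is a time bound `T`, namely `qp`, which is nondecreasing, time-constructible and
subexponential, such that every language in NP is reducible to the set of Kolmogorov-random
strings, for every universal prefix-free machine, by a nonadaptive reduction computable in time
`T(n^O(1))`. -/
theorem result : TimeBound qp ∧ Subexponential qp ∧ N68a2faeb.NP ⊆ DTIMEttRK qp :=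
  ⟨X5_pf', X6_pf, np_subset⟩

end Pool.Agent.Results.MP_69204b_lc.NPQuasiPolyRK
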